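import Pool.Agent.J4H53.GS6.Mve2
import Pool.Agent.J4H97.GS.Mvd

/-!
# Project GS6, piece (MVD2): the mean value on dyadic intervals, with up to two shifts equal to zero
-/

set_option autoImplicit false

open MeasureTheory Set Filter Polynomial Topology
open scoped ComplexConjugate

namespace Pool.Agent.J4H53.GS6

open Pool.Agent.J4H38.GS Pool.Agent.J4H38.GSX
open Pool.Agent.J4H97.GS (dia_unif core DZ_le cont_DN)

noncomputable section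

theorem cont_PP {k : ℕ} (α : Fin k → ℝ) (b : ℂ) (hb1 : b.re < 1) :
    Continuous fun t : ℝ => ∏ i, (1 + ‖HurwitzZeta.expZeta (α i : UnitAddCircle) (b + t * Complex.I)‖) ^ 2 := by
  refine continuous_finsetProd _ fun i _ => ?_
  exact (continuous_const.add (eZ_cont (α i) b hb1).norm).pow 2

theorem t_MVD2 : S_REM2 → S_SUB2 → S_DK → S_POL → S_MVD2 := by
  intro hREM hSUB hDK hPOL J k x₀ x₁ hJ hx₀ hx₀₁ hx₁
  have hk0 : (0 : ℝ) ≤ ((J + k : ℕ) : ℝ) := Nat.cast_nonneg _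
  obtain ⟨η, hηd⟩ : ∃ η : ℝ, η = 1 / (6 * ((J + k : ℕ) : ℝ) + 8) := ⟨_, rfl⟩
  have hη : 0 < η := by rw [hηd]; positivity
  have hη8 : η ≤ 1 / 8 := by
    rw [hηd]
    apply one_div_le_one_div_of_le (by norm_num)
    linarith
  have hη1 : 6 * ((J + k : ℕ) : ℝ) * η ≤ 1 := by
    rw [hηd, mul_one_div, div_le_one (by positivity)]
    linarith
  obtain ⟨δ₁, hδ₁, hR⟩ := hREM J k x₀ x₁ η hJ hx₀ hx₀₁ hx₁ hη hη8
  have hS := hSUB J k x₀ x₁ (δ₁ / 4) hJ hx₀ hx₀₁ hx₁ (by positivity)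
  obtain ⟨δ₂, C₄, hδ₂, hC₄, hD⟩ := dia_unif hDK (J + k) x₀ η hx₀ hη
  obtain ⟨δ, hδ, hδ3, hδ4, hδ5⟩ : ∃ δ : ℝ, 0 < δ ∧ δ ≤ δ₁ / 4 ∧ δ ≤ δ₂ ∧ δ ≤ 1 / 2 := by
    refine ⟨min (min (δ₁ / 4) δ₂) (1 / 2), ?_, ?_, ?_, ?_⟩
    · exact lt_min (lt_min (by positivity) hδ₂) (by norm_num)
    · exact (min_le_left _ _).trans (min_le_left _ _)
    · exact (min_le_left _ _).trans (min_le_right _ _)
    · exact min_le_right _ _
  refine ⟨δ, hδ, ?_⟩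
  filter_upwards [hR, hS] with α hα1 hα2 Y
  obtain ⟨C₁, hC₁, h1⟩ := hα1 Y
  obtain ⟨C₂, hC₂, h2⟩ := hα2 Y
  obtain ⟨C₃, hC₃, h3⟩ := hPOL (J + k) x₀ η (by linarith) hη hη1 (app J k α)
  refine ⟨2 * C₁ + 2 * C₂ + C₃ + C₄, by positivity, ?_⟩
  intro j b hb T hT1 hT2
  have hj0 : (0 : ℝ) ≤ j := Nat.cast_nonneg j
  have hcb : conj b ∈ box x₀ x₁ Y := by
    obtain ⟨p1, p2, p3⟩ := hb
    refine ⟨?_, ?_, ?_⟩
    · rw [Complex.conj_re]; exact p1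
    · rw [Complex.conj_re]; exact p2
    · rw [Complex.conj_im, abs_neg]; exact p3
  have hb1 : b.re < 1 := lt_of_le_of_lt hb.2.1 hx₁
  have hcb1 : (conj b).re < 1 := by rw [Complex.conj_re]; exact hb1
  have hl : (1 : ℝ) ≤ (2 : ℝ) ^ (j * (δ₁ / 2)) := Real.one_le_rpow (by norm_num) (by positivity)
  have hmono : ∀ e : ℝ, e ≤ j * (1 - δ) → (2 : ℝ) ^ e ≤ (2 : ℝ) ^ (j * (1 - δ)) := fun e he =>
    Real.rpow_le_rpow_of_exponent_le (by norm_num) he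
  have hE : ‖(∫ t in ((2 : ℝ) ^ j)..T, conj (DZ (app J k α) (conj b + t * Complex.I)) * DZ (app J k α) (b + t * Complex.I)) -
      ∫ t in ((2 : ℝ) ^ j)..T, conj (DN (NJ η j) (app J k α) (conj b + t * Complex.I)) * DN (NJ η j) (app J k α) (b + t * Complex.I)‖ ≤
      (2 * C₁ + 2 * C₂) * (2 : ℝ) ^ (j * (1 - δ)) := by
    refine (core (fun t => DZ (app J k α) (conj b + t * Complex.I)) (fun t => DZ (app J k α) (b + t * Complex.I))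
      (fun t => DN (NJ η j) (app J k α) (conj b + t * Complex.I)) (fun t => DN (NJ η j) (app J k α) (b + t * Complex.I))
      (fun t => ∏ i, (1 + ‖HurwitzZeta.expZeta (app J k α i : UnitAddCircle) (conj b + t * Complex.I)‖) ^ 2)
      (fun t => ∏ i, (1 + ‖HurwitzZeta.expZeta (app J k α i : UnitAddCircle) (b + t * Complex.I)‖) ^ 2)
      (DZ_cont _ _ hcb1) (DZ_cont _ _ hb1) (cont_DN _ _ _) (cont_DN _ _ _) (cont_PP _ _ hcb1) (cont_PP _ _ hb1)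
      (fun t => DZ_le _ _) (fun t => DZ_le _ _) ((2 : ℝ) ^ j) T (2 ^ (j + 1)) ((2 : ℝ) ^ (j * (δ₁ / 2))) hT1 hT2 hl).trans ?_
    have r1 := h1 j b hb
    have r2 := h1 j (conj b) hcb
    have s1 := h2 j b hb
    have s2 := h2 j (conj b) hcb
    have hl0 : (0 : ℝ) < (2 : ℝ) ^ (j * (δ₁ / 2)) := by positivity
    have q1 : (2 : ℝ) ^ (j * (δ₁ / 2)) * (C₁ * (2 : ℝ) ^ (j * (1 - δ₁)) + C₁ * (2 : ℝ) ^ (j * (1 - δ₁))) ≤
        2 * C₁ * (2 : ℝ) ^ (j * (1 - δ)) := by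
      have e1 : (2 : ℝ) ^ (j * (δ₁ / 2)) * (C₁ * (2 : ℝ) ^ (j * (1 - δ₁)) + C₁ * (2 : ℝ) ^ (j * (1 - δ₁))) =
          2 * C₁ * ((2 : ℝ) ^ (j * (δ₁ / 2)) * (2 : ℝ) ^ (j * (1 - δ₁))) := by ring
      rw [e1, ← Real.rpow_add (by norm_num)]
      refine mul_le_mul_of_nonneg_left (hmono _ ?_) (by positivity)
      nlinarith
    have q2 : (C₂ * (2 : ℝ) ^ (j * (1 + δ₁ / 4)) + C₂ * (2 : ℝ) ^ (j * (1 + δ₁ / 4))) / (2 : ℝ) ^ (j * (δ₁ / 2)) ≤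
        2 * C₂ * (2 : ℝ) ^ (j * (1 - δ)) := by
      have e1 : (C₂ * (2 : ℝ) ^ (j * (1 + δ₁ / 4)) + C₂ * (2 : ℝ) ^ (j * (1 + δ₁ / 4))) / (2 : ℝ) ^ (j * (δ₁ / 2)) =
          2 * C₂ * ((2 : ℝ) ^ (j * (1 + δ₁ / 4)) / (2 : ℝ) ^ (j * (δ₁ / 2))) := by ring
      rw [e1, ← Real.rpow_sub (by norm_num)]
      refine mul_le_mul_of_nonneg_left (hmono _ ?_) (by positivity)
      nlinarith
    have q3 : (2 : ℝ) ^ (j * (δ₁ / 2)) * ((∫ t in ((2 : ℝ) ^ j)..(2 ^ (j + 1)),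
          ‖DZ (app J k α) (conj b + t * Complex.I) - DN (NJ η j) (app J k α) (conj b + t * Complex.I)‖ ^ 2) +
        ∫ t in ((2 : ℝ) ^ j)..(2 ^ (j + 1)), ‖DZ (app J k α) (b + t * Complex.I) - DN (NJ η j) (app J k α) (b + t * Complex.I)‖ ^ 2) ≤
        (2 : ℝ) ^ (j * (δ₁ / 2)) * (C₁ * (2 : ℝ) ^ (j * (1 - δ₁)) + C₁ * (2 : ℝ) ^ (j * (1 - δ₁))) :=
      mul_le_mul_of_nonneg_left (add_le_add r2 r1) hl0.le
    have q4 : ((∫ t in ((2 : ℝ) ^ j)..(2 ^ (j + 1)),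
          ∏ i, (1 + ‖HurwitzZeta.expZeta (app J k α i : UnitAddCircle) (conj b + t * Complex.I)‖) ^ 2) +
        ∫ t in ((2 : ℝ) ^ j)..(2 ^ (j + 1)),
          ∏ i, (1 + ‖HurwitzZeta.expZeta (app J k α i : UnitAddCircle) (b + t * Complex.I)‖) ^ 2) / (2 : ℝ) ^ (j * (δ₁ / 2)) ≤
        (C₂ * (2 : ℝ) ^ (j * (1 + δ₁ / 4)) + C₂ * (2 : ℝ) ^ (j * (1 + δ₁ / 4))) / (2 : ℝ) ^ (j * (δ₁ / 2)) :=
      div_le_div_of_nonneg_right (add_le_add s2 s1) hl0.le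
    calc _ ≤ 2 * C₁ * (2 : ℝ) ^ (j * (1 - δ)) + 2 * C₂ * (2 : ℝ) ^ (j * (1 - δ)) :=
          add_le_add (q3.trans q1) (q4.trans q2)
      _ = _ := by ring
  have hF := h3 j b T hb.1 hT1 hT2
  have hG := hD (app J k α) j b hb.1
  have hF' : C₃ * (2 : ℝ) ^ ((j : ℝ) / 2) ≤ C₃ * (2 : ℝ) ^ (j * (1 - δ)) := by
    refine mul_le_mul_of_nonneg_left (hmono _ ?_) hC₃
    nlinarith
  have hG' : ‖((T - 2 ^ j : ℝ) : ℂ) * MN (NJ η j) (app J k α) b - ((T - 2 ^ j : ℝ) : ℂ) * MM (app J k α) b‖ ≤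
      C₄ * (2 : ℝ) ^ (j * (1 - δ)) := by
    rw [← mul_sub, norm_mul, Complex.norm_real, Real.norm_eq_abs, abs_of_nonneg (by linarith)]
    have e0 : T - 2 ^ j ≤ (2 : ℝ) ^ (j : ℝ) := by
      rw [Real.rpow_natCast]
      rw [pow_succ] at hT2
      linarith
    calc (T - 2 ^ j) * ‖MN (NJ η j) (app J k α) b - MM (app J k α) b‖ ≤ (2 : ℝ) ^ (j : ℝ) * (C₄ * (2 : ℝ) ^ (-(δ₂ * j))) :=
          mul_le_mul e0 hG (norm_nonneg _) (by positivity)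
      _ = C₄ * (2 : ℝ) ^ ((j : ℝ) + -(δ₂ * j)) := by
          rw [Real.rpow_add (by norm_num)]
          ring
      _ ≤ C₄ * (2 : ℝ) ^ (j * (1 - δ)) := by
          refine mul_le_mul_of_nonneg_left (hmono _ ?_) hC₄
          nlinarith
  obtain ⟨I1, hI1⟩ : ∃ I1 : ℂ, I1 = ∫ t in ((2 : ℝ) ^ j)..T, conj (DZ (app J k α) (conj b + t * Complex.I)) * DZ (app J k α) (b + t * Complex.I) :=
    ⟨_, rfl⟩
  obtain ⟨I2, hI2⟩ : ∃ I2 : ℂ, I2 = ∫ t in ((2 : ℝ) ^ j)..T,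
      conj (DN (NJ η j) (app J k α) (conj b + t * Complex.I)) * DN (NJ η j) (app J k α) (b + t * Complex.I) := ⟨_, rfl⟩
  rw [← hI1] at hE ⊢
  rw [← hI2] at hE hF
  have e : I1 - ((T - 2 ^ j : ℝ) : ℂ) * MM (app J k α) b = (I1 - I2) + (I2 - ((T - 2 ^ j : ℝ) : ℂ) * MN (NJ η j) (app J k α) b) +
      (((T - 2 ^ j : ℝ) : ℂ) * MN (NJ η j) (app J k α) b - ((T - 2 ^ j : ℝ) : ℂ) * MM (app J k α) b) := by ring
  rw [e]
  refine (norm_add_le _ _).trans ?_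
  have h4 := norm_add_le (I1 - I2) (I2 - ((T - 2 ^ j : ℝ) : ℂ) * MN (NJ η j) (app J k α) b)
  calc _ ≤ ((2 * C₁ + 2 * C₂) * (2 : ℝ) ^ (j * (1 - δ)) + C₃ * (2 : ℝ) ^ (j * (1 - δ))) +
        C₄ * (2 : ℝ) ^ (j * (1 - δ)) := add_le_add (h4.trans (add_le_add hE (hF.trans hF'))) hG'
    _ = _ := by ring


end

end Pool.Agent.J4H53.GS6
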