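import Pool.Agent.J4H38.GSX.Stm7
import Pool.Agent.J4H53.GS.Mve

/-!
# Project GS6, piece (MVE2): from `expZeta` to `EE`, with up to two shifts equal to zero
-/

set_option autoImplicit false

namespace Pool.Agent.J4H53.GS6

open MeasureTheory Set Filter Topology
open scoped ComplexConjugate
open Pool.Agent.J4H38.GS Pool.Agent.J4H38.GSX
open Pool.Agent.J4H53.GS (AA_ne exp_small prod_near Pp Pp_nonneg Pp_sq line_cont)

section one

theorem expZeta_contAt (a : ℝ) {w : ℂ} (hw : w ≠ 1) : ContinuousAt (HurwitzZeta.expZeta (a : UnitAddCircle)) w :=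
  (HurwitzZeta.differentiableAt_expZeta _ _ (Or.inl hw)).continuousAt

theorem AA_contAt {w : ℂ} (hw : 0 < w.re) : ContinuousAt AA w := by
  unfold AA
  refine ContinuousAt.mul (ContinuousAt.mul ?_ ?_) ?_
  · refine Continuous.continuousAt ?_
    refine Continuous.const_cpow continuous_neg (Or.inl ?_)
    exact mul_ne_zero two_ne_zero (by exact_mod_cast Real.pi_ne_zero)
  · refine (Complex.differentiableAt_Gamma w ?_).continuousAt
    intro m hm
    have : w.re = -(m : ℝ) := by rw [hm]; simp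
    have h3 : (0 : ℝ) ≤ m := Nat.cast_nonneg m
    linarith
  · refine Continuous.continuousAt ?_
    fun_prop

theorem EE_contAt (a : ℝ) {w : ℂ} (hw : 0 < w.re) (hw1 : w ≠ 1) : ContinuousAt (EE a) w := by
  unfold EE
  have hneg : ContinuousAt (HurwitzZeta.expZeta (-(a : UnitAddCircle))) w :=
    (HurwitzZeta.differentiableAt_expZeta _ _ (Or.inl hw1)).continuousAt
  refine ContinuousAt.sub (ContinuousAt.add (expZeta_contAt a hw1) ?_) ?_
  · refine ContinuousAt.mul ?_ hneg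
    refine Continuous.continuousAt ?_
    fun_prop
  · refine ContinuousAt.div ?_ (AA_contAt hw) (AA_ne hw)
    exact ContinuousAt.const_cpow (continuousAt_id.sub continuousAt_const) (Or.inr (sub_ne_zero.2 hw1))

theorem diff_bound (h2 : S_L2) (h3 : S_L3) (a : ℝ) (ha0 : 0 ≤ a) (ha1 : a < 1) (x₀ x₁ : ℝ)
    (hx : 1 / 2 < x₀) (_h01 : x₀ ≤ x₁) : ∃ C : ℝ, 0 ≤ C ∧ ∀ w : ℂ, x₀ ≤ w.re → w.re ≤ x₁ → 1 ≤ w.im →
      ‖EE a w - HurwitzZeta.expZeta (a : UnitAddCircle) w‖ ≤ C * w.im ^ (1 / 2 - x₀) := by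
  obtain ⟨c, hc, hA⟩ := h2 x₁
  obtain ⟨C3, hC3, hZ⟩ := h3 (-a)
  obtain ⟨K, hK0, hK⟩ := exp_small x₀
  have hx1 : 0 < x₁ := by linarith
  refine ⟨C3 * (x₁ + 1) * K + a ^ (-(1 / 2) : ℝ) / c, by positivity, ?_⟩
  intro w hw1 hw2 hw3
  obtain ⟨v, hv⟩ : ∃ v : ℝ, v = w.im := ⟨_, rfl⟩
  have hv1 : 1 ≤ v := by rw [hv]; exact hw3
  have hv0 : 0 < v := by linarith
  have e1 : EE a w - HurwitzZeta.expZeta (a : UnitAddCircle) w =
      Complex.exp (Real.pi * Complex.I * w) * HurwitzZeta.expZeta (-(a : UnitAddCircle)) w -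
        (a : ℂ) ^ (w - 1) / AA w := by
    unfold EE
    ring
  have n1 : ‖Complex.exp (Real.pi * Complex.I * w)‖ = Real.exp (-(Real.pi * v)) := by
    rw [Complex.norm_exp, hv]
    congr 1
    simp
  have n2 : ‖HurwitzZeta.expZeta (-(a : UnitAddCircle)) w‖ ≤ C3 * ((x₁ + 1) * v) := by
    have h4 := hZ w (by linarith) hw3
    rw [AddCircle.coe_neg] at h4
    refine h4.trans (mul_le_mul_of_nonneg_left ?_ hC3)
    have h5 := Complex.norm_le_abs_re_add_abs_im w
    rw [abs_of_pos (by linarith : 0 < w.re), abs_of_pos (by linarith : 0 < w.im), ← hv] at h5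
    nlinarith
  have n3 : ‖(a : ℂ) ^ (w - 1) / AA w‖ ≤ a ^ (-(1 / 2) : ℝ) / c * v ^ (1 / 2 - x₀) := by
    have hp0 : 0 ≤ v ^ (1 / 2 - x₀) := Real.rpow_nonneg hv0.le _
    rcases ha0.eq_or_lt with ha0' | ha0
    · have hw1 : w - 1 ≠ 0 := by
        intro h
        have h4 : w.im = 0 := by
          have : w = 1 := sub_eq_zero.1 h
          rw [this]
          simp
        linarith
      rw [← ha0', Complex.ofReal_zero, Complex.zero_cpow hw1, zero_div, norm_zero]
      exact mul_nonneg (div_nonneg (Real.rpow_nonneg le_rfl _) hc.le) hp0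
    rw [norm_div, Complex.norm_cpow_eq_rpow_re_of_pos ha0]
    have h4 : a ^ (w - 1).re ≤ a ^ (-(1 / 2) : ℝ) := by
      apply Real.rpow_le_rpow_of_exponent_ge ha0 ha1.le
      rw [Complex.sub_re, Complex.one_re]
      linarith
    have h5 := hA w (by linarith) hw2 hw3
    rw [← hv] at h5
    have h6 : c * v ^ (x₀ - 1 / 2) ≤ ‖AA w‖ := by
      refine le_trans (mul_le_mul_of_nonneg_left ?_ hc.le) h5
      exact Real.rpow_le_rpow_of_exponent_le hv1 (by linarith)
    have hp : 0 < v ^ (x₀ - 1 / 2) := Real.rpow_pos_of_pos hv0 _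
    have e2 : v ^ (1 / 2 - x₀) = (v ^ (x₀ - 1 / 2))⁻¹ := by
      rw [← Real.rpow_neg hv0.le]
      congr 1
      ring
    have e3 : a ^ (-(1 / 2) : ℝ) / c * v ^ (1 / 2 - x₀) = a ^ (-(1 / 2) : ℝ) / (c * v ^ (x₀ - 1 / 2)) := by
      rw [e2]
      field_simp
    rw [e3]
    exact div_le_div₀ (Real.rpow_nonneg ha0.le _) h4 (by positivity) h6
  rw [e1]
  refine (norm_sub_le _ _).trans ?_
  rw [norm_mul, n1, ← hv, add_mul]
  refine add_le_add ?_ n3
  calc Real.exp (-(Real.pi * v)) * ‖HurwitzZeta.expZeta (-(a : UnitAddCircle)) w‖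
      ≤ Real.exp (-(Real.pi * v)) * (C3 * ((x₁ + 1) * v)) := mul_le_mul_of_nonneg_left n2 (Real.exp_pos _).le
    _ = C3 * (x₁ + 1) * (v * Real.exp (-(Real.pi * v))) := by ring
    _ ≤ C3 * (x₁ + 1) * (K * v ^ (1 / 2 - x₀)) := mul_le_mul_of_nonneg_left (hK v hv1) (by positivity)
    _ = C3 * (x₁ + 1) * K * v ^ (1 / 2 - x₀) := by ring

end one

section two

variable {k : ℕ}

theorem near (h2 : S_L2) (h3 : S_L3) (α : Fin k → ℝ) (hα : ∀ i, 0 ≤ α i ∧ α i < 1) (x₀ x₁ Y : ℝ)
    (hx : 1 / 2 < x₀) (h01 : x₀ ≤ x₁) (hY : 0 ≤ Y) : ∃ K : ℝ, 1 ≤ K ∧ ∀ j : ℕ, Y + 1 ≤ 2 ^ j →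
      ∀ b ∈ box x₀ x₁ Y, ∀ t : ℝ, (2 : ℝ) ^ j ≤ t →
        ‖EP α (b + t * Complex.I)‖ ≤ K * Pp α (b + t * Complex.I) ∧
        ‖DZ α (b + t * Complex.I)‖ ≤ Pp α (b + t * Complex.I) ∧
        ‖EP α (b + t * Complex.I) - DZ α (b + t * Complex.I)‖ ≤
          (2 : ℝ) ^ (j * (-(x₀ - 1 / 2))) * K * Pp α (b + t * Complex.I) := by
  have hd : ∀ i, ∃ C : ℝ, 0 ≤ C ∧ ∀ w : ℂ, x₀ ≤ w.re → w.re ≤ x₁ → 1 ≤ w.im →
      ‖EE (α i) w - HurwitzZeta.expZeta (α i : UnitAddCircle) w‖ ≤ C * w.im ^ (1 / 2 - x₀) :=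
    fun i => diff_bound h2 h3 (α i) (hα i).1 (hα i).2 x₀ x₁ hx h01
  choose C hC0 hC using hd
  have hY1 : 0 < Y + 1 := by linarith
  obtain ⟨c, hc⟩ : ∃ c : ℝ, c = 1 + (∑ i, C i) * (Y + 1) ^ (x₀ - 1 / 2) := ⟨_, rfl⟩
  have hsum0 : 0 ≤ ∑ i, C i := Finset.sum_nonneg fun i _ => hC0 i
  have hYp : 0 ≤ (Y + 1) ^ (x₀ - 1 / 2) := Real.rpow_nonneg hY1.le _
  have hc1 : 1 ≤ c := by rw [hc]; nlinarith [mul_nonneg hsum0 hYp]
  refine ⟨c ^ k, one_le_pow₀ hc1, ?_⟩
  intro j hj b hb t ht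
  obtain ⟨hb1, hb2, hb3⟩ := hb
  obtain ⟨w, hw⟩ : ∃ w : ℂ, w = b + t * Complex.I := ⟨_, rfl⟩
  rw [← hw]
  have hwre : w.re = b.re := by rw [hw]; simp
  have hwim : w.im = b.im + t := by rw [hw]; simp
  have hbim := abs_le.1 hb3
  have h2j : (1 : ℝ) ≤ 2 ^ j := by linarith
  have him1 : 1 ≤ w.im := by rw [hwim]; linarith
  have him2 : (2 : ℝ) ^ j / (Y + 1) ≤ w.im := by
    rw [div_le_iff₀ hY1, hwim]
    have : (2 : ℝ) ^ j - Y ≤ b.im + t := by linarith
    nlinarith
  have hη : w.im ^ (1 / 2 - x₀) ≤ (Y + 1) ^ (x₀ - 1 / 2) * (2 : ℝ) ^ (j * (-(x₀ - 1 / 2))) := by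
    have h4 : w.im ^ (1 / 2 - x₀) ≤ ((2 : ℝ) ^ j / (Y + 1)) ^ (1 / 2 - x₀) :=
      Real.rpow_le_rpow_of_nonpos (by positivity) him2 (by linarith)
    refine h4.trans (le_of_eq ?_)
    rw [Real.div_rpow (by positivity) hY1.le, Real.rpow_natCast_mul (by norm_num : (0:ℝ) ≤ 2)]
    have e1 : (1 / 2 - x₀) = -(x₀ - 1 / 2) := by ring
    rw [e1, Real.rpow_neg hY1.le, div_inv_eq_mul, mul_comm]
  obtain ⟨η, hηd⟩ : ∃ η : ℝ, η = (2 : ℝ) ^ (j * (-(x₀ - 1 / 2))) := ⟨_, rfl⟩
  rw [← hηd] at hη ⊢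
  have hη0 : 0 ≤ η := by rw [hηd]; exact Real.rpow_nonneg (by norm_num) _
  have hη1 : η ≤ 1 := by
    rw [hηd]
    apply Real.rpow_le_one_of_one_le_of_nonpos (by norm_num)
    have : (0 : ℝ) ≤ j := Nat.cast_nonneg j
    nlinarith
  have hnear := prod_near Finset.univ (fun i => EE (α i) w) (fun i => HurwitzZeta.expZeta (α i : UnitAddCircle) w) c η
    hη0 hη1 (by linarith) (fun i _ => by
      refine (hC i w (by rw [hwre]; exact hb1) (by rw [hwre]; exact hb2) him1).trans ?_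
      have h5 : C i ≤ ∑ l, C l := Finset.single_le_sum (fun l _ => hC0 l) (Finset.mem_univ i)
      calc C i * w.im ^ (1 / 2 - x₀) ≤ (∑ l, C l) * ((Y + 1) ^ (x₀ - 1 / 2) * η) :=
            mul_le_mul h5 hη (Real.rpow_nonneg (by linarith) _) hsum0
        _ ≤ c * η := by rw [hc]; nlinarith)
  have hPc : ∏ i, (‖HurwitzZeta.expZeta (α i : UnitAddCircle) w‖ + c) ≤ c ^ k * Pp α w := by
    have e : c ^ k * Pp α w = ∏ i : Fin k, (c * (1 + ‖HurwitzZeta.expZeta (α i : UnitAddCircle) w‖)) := by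
      rw [Finset.prod_mul_distrib, Finset.prod_const, Finset.card_univ, Fintype.card_fin]
      rfl
    rw [e]
    apply Finset.prod_le_prod
    · intro i _
      positivity
    · intro i _
      have : 0 ≤ ‖HurwitzZeta.expZeta (α i : UnitAddCircle) w‖ := norm_nonneg _
      nlinarith
  refine ⟨hnear.1.trans hPc, ?_, ?_⟩
  · unfold DZ Pp
    rw [norm_prod]
    apply Finset.prod_le_prod
    · intro i _
      exact norm_nonneg _
    · intro i _
      linarith
  · refine hnear.2.trans ?_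
    rw [mul_assoc]
    exact mul_le_mul_of_nonneg_left hPc hη0

theorem line_ne {b : ℂ} (hb1 : b.re < 1) (t : ℝ) : b + t * Complex.I ≠ 1 := by
  intro h
  have : (b + t * Complex.I).re = 1 := by rw [h]; simp
  simp at this
  linarith

theorem EP_cont (α : Fin k → ℝ) (b : ℂ) (hb : 0 < b.re) (hb1 : b.re < 1) :
    Continuous (fun t : ℝ => EP α (b + t * Complex.I)) := by
  unfold EP
  refine continuous_finsetProd _ fun i _ => ?_
  refine continuous_iff_continuousAt.2 fun t => ?_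
  have h0 : 0 < (b + t * Complex.I).re := by simpa using hb
  exact ContinuousAt.comp (f := fun t : ℝ => b + t * Complex.I) (EE_contAt (α i) h0 (line_ne hb1 t)) (line_cont b).continuousAt

theorem eZ_cont (a : ℝ) (b : ℂ) (hb1 : b.re < 1) :
    Continuous (fun t : ℝ => HurwitzZeta.expZeta (a : UnitAddCircle) (b + t * Complex.I)) := by
  refine continuous_iff_continuousAt.2 fun t => ?_
  exact ContinuousAt.comp (f := fun t : ℝ => b + t * Complex.I) (expZeta_contAt a (line_ne hb1 t)) (line_cont b).continuousAt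

theorem DZ_cont (α : Fin k → ℝ) (b : ℂ) (hb1 : b.re < 1) :
    Continuous (fun t : ℝ => DZ α (b + t * Complex.I)) := by
  unfold DZ
  exact continuous_finsetProd _ fun i _ => eZ_cont (α i) b hb1

theorem Pp_cont (α : Fin k → ℝ) (b : ℂ) (hb1 : b.re < 1) :
    Continuous (fun t : ℝ => Pp α (b + t * Complex.I)) := by
  unfold Pp
  exact continuous_finsetProd _ fun i _ => continuous_const.add (eZ_cont (α i) b hb1).norm

theorem ae_app (J k : ℕ) : ∀ᵐ α ∂(volume.restrict (cube k)), ∀ i, 0 ≤ app J k α i ∧ app J k α i < 1 := by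
  have hmeas : MeasurableSet (cube k) := MeasurableSet.univ_pi fun _ => measurableSet_Ico
  filter_upwards [ae_restrict_mem hmeas] with α h3 i
  unfold app
  refine Fin.addCases (fun i => ?_) (fun i => ?_) i
  · rw [Fin.append_left]
    exact ⟨le_rfl, one_pos⟩
  · rw [Fin.append_right]
    exact h3 i (Set.mem_univ i)

end two

/-- (MVE2) -/
theorem t_MVE2 : S_L2 → S_L3 → S_SUB2 → S_MVD2 → S_MVE2 := by
  intro h2 h3 hsub hmvd J k x₀ x₁ hJ hx h01 hx1
  obtain ⟨θ, hθ⟩ : ∃ θ : ℝ, θ = x₀ - 1 / 2 := ⟨_, rfl⟩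
  have hθ0 : 0 < θ := by rw [hθ]; linarith
  constructor
  · obtain ⟨δ, hδ, hD⟩ := hmvd J k x₀ x₁ hJ hx h01 hx1
    refine ⟨min δ (θ / 2), lt_min hδ (by linarith), ?_⟩
    filter_upwards [hD, ae_app J k, hsub J k x₀ x₁ (θ / 2) hJ hx h01 hx1 (by linarith)] with α hD hα hS
    intro Y
    by_cases hY : 0 ≤ Y
    swap
    · refine ⟨0, le_rfl, ?_⟩
      intro j _ b hb
      exact absurd ((abs_nonneg _).trans hb.2.2) hY
    obtain ⟨C1, hC1, hD⟩ := hD Y
    obtain ⟨C2, hC2, hS⟩ := hS Y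
    obtain ⟨K, hK1, hK⟩ := near h2 h3 (app J k α) hα x₀ x₁ Y hx h01 hY
    refine ⟨C1 + 2 * K ^ 2 * C2, by positivity, ?_⟩
    intro j hj b hb T hT1 hT2
    have hbc : conj b ∈ box x₀ x₁ Y := by
      refine ⟨by rw [Complex.conj_re]; exact hb.1, by rw [Complex.conj_re]; exact hb.2.1, ?_⟩
      rw [Complex.conj_im, abs_neg]
      exact hb.2.2
    have hbre : 0 < b.re := by linarith [hb.1]
    have hbcre : 0 < (conj b).re := by rw [Complex.conj_re]; exact hbre
    have hbre1 : b.re < 1 := lt_of_le_of_lt hb.2.1 hx1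
    have hbcre1 : (conj b).re < 1 := by rw [Complex.conj_re]; exact hbre1
    have cE := EP_cont (app J k α) b hbre hbre1
    have cE' := EP_cont (app J k α) (conj b) hbcre hbcre1
    have cD := DZ_cont (app J k α) b hbre1
    have cD' := DZ_cont (app J k α) (conj b) hbcre1
    have cP := Pp_cont (app J k α) b hbre1
    have cP' := Pp_cont (app J k α) (conj b) hbcre1
    obtain ⟨η, hη⟩ : ∃ η : ℝ, η = (2 : ℝ) ^ (j * (-(x₀ - 1 / 2))) := ⟨_, rfl⟩
    have hη0 : 0 ≤ η := by rw [hη]; exact Real.rpow_nonneg (by norm_num) _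
    have iF : IntervalIntegrable (fun t : ℝ => conj (EP (app J k α) (conj b + t * Complex.I)) * EP (app J k α) (b + t * Complex.I))
        volume (2 ^ j) T := (Continuous.mul (Complex.continuous_conj.comp cE') cE).intervalIntegrable _ _
    have iG : IntervalIntegrable (fun t : ℝ => conj (DZ (app J k α) (conj b + t * Complex.I)) * DZ (app J k α) (b + t * Complex.I))
        volume (2 ^ j) T := (Continuous.mul (Complex.continuous_conj.comp cD') cD).intervalIntegrable _ _
    have iB : ∀ S : ℝ, IntervalIntegrable (fun t : ℝ => η * K ^ 2 * (Pp (app J k α) (conj b + t * Complex.I) ^ 2 + Pp (app J k α) (b + t * Complex.I) ^ 2))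
        volume (2 ^ j) S := fun S => (continuous_const.mul ((cP'.pow 2).add (cP.pow 2))).intervalIntegrable _ _
    have hdiff : ‖(∫ t in ((2 : ℝ) ^ j)..T, conj (EP (app J k α) (conj b + t * Complex.I)) * EP (app J k α) (b + t * Complex.I)) -
        ∫ t in ((2 : ℝ) ^ j)..T, conj (DZ (app J k α) (conj b + t * Complex.I)) * DZ (app J k α) (b + t * Complex.I)‖ ≤
        2 * K ^ 2 * C2 * (2 : ℝ) ^ (j * (1 - θ / 2)) := by
      rw [← intervalIntegral.integral_sub iF iG]
      have hb1 : ‖∫ t in ((2 : ℝ) ^ j)..T, (conj (EP (app J k α) (conj b + t * Complex.I)) * EP (app J k α) (b + t * Complex.I) -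
          conj (DZ (app J k α) (conj b + t * Complex.I)) * DZ (app J k α) (b + t * Complex.I))‖ ≤
          ∫ t in ((2 : ℝ) ^ j)..T, η * K ^ 2 * (Pp (app J k α) (conj b + t * Complex.I) ^ 2 + Pp (app J k α) (b + t * Complex.I) ^ 2) := by
        refine intervalIntegral.norm_integral_le_of_norm_le hT1 ?_ (iB T)
        refine Filter.Eventually.of_forall fun t ht => ?_
        have ht1 : (2 : ℝ) ^ j ≤ t := ht.1.le
        obtain ⟨a1, a2, a3⟩ := hK j hj b hb t ht1
        obtain ⟨b1, b2, b3⟩ := hK j hj (conj b) hbc t ht1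
        rw [← hη] at a3 b3
        have e : conj (EP (app J k α) (conj b + t * Complex.I)) * EP (app J k α) (b + t * Complex.I) -
            conj (DZ (app J k α) (conj b + t * Complex.I)) * DZ (app J k α) (b + t * Complex.I) =
            conj (EP (app J k α) (conj b + t * Complex.I) - DZ (app J k α) (conj b + t * Complex.I)) * EP (app J k α) (b + t * Complex.I) +
            conj (DZ (app J k α) (conj b + t * Complex.I)) * (EP (app J k α) (b + t * Complex.I) - DZ (app J k α) (b + t * Complex.I)) := by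
          rw [map_sub]
          ring
        rw [e]
        refine (norm_add_le _ _).trans ?_
        rw [norm_mul, norm_mul, RCLike.norm_conj, RCLike.norm_conj]
        have p1 : 0 ≤ Pp (app J k α) (b + t * Complex.I) := Pp_nonneg _ _
        have p2 : 0 ≤ Pp (app J k α) (conj b + t * Complex.I) := Pp_nonneg _ _
        have q1 : ‖EP (app J k α) (conj b + t * Complex.I) - DZ (app J k α) (conj b + t * Complex.I)‖ * ‖EP (app J k α) (b + t * Complex.I)‖ ≤
            (η * K * Pp (app J k α) (conj b + t * Complex.I)) * (K * Pp (app J k α) (b + t * Complex.I)) :=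
          mul_le_mul b3 a1 (norm_nonneg _) (by positivity)
        have q2 : ‖DZ (app J k α) (conj b + t * Complex.I)‖ * ‖EP (app J k α) (b + t * Complex.I) - DZ (app J k α) (b + t * Complex.I)‖ ≤
            Pp (app J k α) (conj b + t * Complex.I) * (η * K * Pp (app J k α) (b + t * Complex.I)) :=
          mul_le_mul b2 a3 (norm_nonneg _) p2
        have q3 : Pp (app J k α) (conj b + t * Complex.I) * (η * K * Pp (app J k α) (b + t * Complex.I)) ≤
            (η * K * Pp (app J k α) (conj b + t * Complex.I)) * (K * Pp (app J k α) (b + t * Complex.I)) := by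
          have : 0 ≤ η * K * (Pp (app J k α) (conj b + t * Complex.I) * Pp (app J k α) (b + t * Complex.I)) := by positivity
          nlinarith
        have q4 : (η * K * Pp (app J k α) (conj b + t * Complex.I)) * (K * Pp (app J k α) (b + t * Complex.I)) +
            (η * K * Pp (app J k α) (conj b + t * Complex.I)) * (K * Pp (app J k α) (b + t * Complex.I)) =
            η * K ^ 2 * (2 * Pp (app J k α) (conj b + t * Complex.I) * Pp (app J k α) (b + t * Complex.I)) := by ring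
        have q5 : 2 * Pp (app J k α) (conj b + t * Complex.I) * Pp (app J k α) (b + t * Complex.I) ≤
            Pp (app J k α) (conj b + t * Complex.I) ^ 2 + Pp (app J k α) (b + t * Complex.I) ^ 2 := two_mul_le_add_sq _ _
        have q6 := mul_le_mul_of_nonneg_left q5 (show 0 ≤ η * K ^ 2 by positivity)
        linarith
      have hb2 : (∫ t in ((2 : ℝ) ^ j)..T, η * K ^ 2 * (Pp (app J k α) (conj b + t * Complex.I) ^ 2 + Pp (app J k α) (b + t * Complex.I) ^ 2)) ≤
          ∫ t in ((2 : ℝ) ^ j)..(2 ^ (j + 1)), η * K ^ 2 * (Pp (app J k α) (conj b + t * Complex.I) ^ 2 + Pp (app J k α) (b + t * Complex.I) ^ 2) := by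
        apply intervalIntegral.integral_mono_interval le_rfl hT1 hT2 _ (iB _)
        refine Filter.Eventually.of_forall fun t => ?_
        change 0 ≤ η * K ^ 2 * (Pp (app J k α) (conj b + t * Complex.I) ^ 2 + Pp (app J k α) (b + t * Complex.I) ^ 2)
        positivity
      have hs1 := hS j b hb
      have hs2 := hS j (conj b) hbc
      simp only [Pp_sq] at hs1 hs2
      have hb3 : (∫ t in ((2 : ℝ) ^ j)..(2 ^ (j + 1)), η * K ^ 2 * (Pp (app J k α) (conj b + t * Complex.I) ^ 2 + Pp (app J k α) (b + t * Complex.I) ^ 2)) ≤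
          η * K ^ 2 * (2 * (C2 * (2 : ℝ) ^ (j * (1 + θ / 2)))) := by
        have i1 : IntervalIntegrable (fun t : ℝ => Pp (app J k α) (conj b + t * Complex.I) ^ 2) volume (2 ^ j) (2 ^ (j + 1)) :=
          (cP'.pow 2).intervalIntegrable _ _
        have i2 : IntervalIntegrable (fun t : ℝ => Pp (app J k α) (b + t * Complex.I) ^ 2) volume (2 ^ j) (2 ^ (j + 1)) :=
          (cP.pow 2).intervalIntegrable _ _
        rw [intervalIntegral.integral_const_mul, intervalIntegral.integral_add i1 i2]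
        exact mul_le_mul_of_nonneg_left (by linarith) (by positivity)
      refine (hb1.trans (hb2.trans hb3)).trans (le_of_eq ?_)
      have e2 : η * (2 : ℝ) ^ (j * (1 + θ / 2)) = (2 : ℝ) ^ (j * (1 - θ / 2)) := by
        rw [hη, ← Real.rpow_add (by norm_num : (0:ℝ) < 2), ← hθ]
        congr 1
        ring
      rw [← e2]
      ring
    have hmono : ∀ δ' : ℝ, min δ (θ / 2) ≤ δ' → (2 : ℝ) ^ (j * (1 - δ')) ≤ (2 : ℝ) ^ (j * (1 - min δ (θ / 2))) := by
      intro δ' hδ'
      apply Real.rpow_le_rpow_of_exponent_le (by norm_num)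
      exact mul_le_mul_of_nonneg_left (by linarith) (Nat.cast_nonneg j)
    have hD' := hD j b hb T hT1 hT2
    have e3 : (∫ t in ((2 : ℝ) ^ j)..T, conj (EP (app J k α) (conj b + t * Complex.I)) * EP (app J k α) (b + t * Complex.I)) -
        ((T - 2 ^ j : ℝ) : ℂ) * MM (app J k α) b =
        ((∫ t in ((2 : ℝ) ^ j)..T, conj (EP (app J k α) (conj b + t * Complex.I)) * EP (app J k α) (b + t * Complex.I)) -
          ∫ t in ((2 : ℝ) ^ j)..T, conj (DZ (app J k α) (conj b + t * Complex.I)) * DZ (app J k α) (b + t * Complex.I)) +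
        ((∫ t in ((2 : ℝ) ^ j)..T, conj (DZ (app J k α) (conj b + t * Complex.I)) * DZ (app J k α) (b + t * Complex.I)) -
          ((T - 2 ^ j : ℝ) : ℂ) * MM (app J k α) b) := by ring
    rw [e3]
    refine (norm_add_le _ _).trans ?_
    have m1 := mul_le_mul_of_nonneg_left (hmono δ (min_le_left _ _)) hC1
    have m2 := mul_le_mul_of_nonneg_left (hmono (θ / 2) (min_le_right _ _)) (show 0 ≤ 2 * K ^ 2 * C2 by positivity)
    rw [add_mul]
    linarith
  · intro ε hε
    filter_upwards [ae_app J k, hsub J k x₀ x₁ ε hJ hx h01 hx1 hε] with α hα hS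
    intro Y
    by_cases hY : 0 ≤ Y
    swap
    · refine ⟨0, le_rfl, ?_⟩
      intro j _ b hb
      exact absurd ((abs_nonneg _).trans hb.2.2) hY
    obtain ⟨C2, hC2, hS⟩ := hS Y
    obtain ⟨K, hK1, hK⟩ := near h2 h3 (app J k α) hα x₀ x₁ Y hx h01 hY
    refine ⟨K ^ 2 * C2, by positivity, ?_⟩
    intro j hj b hb
    have hbre : 0 < b.re := by linarith [hb.1]
    have hbre1 : b.re < 1 := lt_of_le_of_lt hb.2.1 hx1
    have cE := EP_cont (app J k α) b hbre hbre1
    have cP := Pp_cont (app J k α) b hbre1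
    have hs1 := hS j b hb
    simp only [Pp_sq] at hs1
    have h2j : (2 : ℝ) ^ j ≤ 2 ^ (j + 1) := by
      rw [pow_succ]
      have : (0 : ℝ) < 2 ^ j := by positivity
      linarith
    calc (∫ t in ((2 : ℝ) ^ j)..(2 ^ (j + 1)), ‖EP (app J k α) (b + t * Complex.I)‖ ^ 2)
        ≤ ∫ t in ((2 : ℝ) ^ j)..(2 ^ (j + 1)), K ^ 2 * Pp (app J k α) (b + t * Complex.I) ^ 2 := by
          refine intervalIntegral.integral_mono_on h2j ((cE.norm.pow 2).intervalIntegrable _ _)
            ((continuous_const.mul (cP.pow 2)).intervalIntegrable _ _) (fun t ht => ?_)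
          obtain ⟨a1, _, _⟩ := hK j hj b hb t ht.1
          rw [← mul_pow]
          exact pow_le_pow_left₀ (norm_nonneg _) a1 2
      _ = K ^ 2 * ∫ t in ((2 : ℝ) ^ j)..(2 ^ (j + 1)), Pp (app J k α) (b + t * Complex.I) ^ 2 :=
          intervalIntegral.integral_const_mul _ _
      _ ≤ K ^ 2 * (C2 * (2 : ℝ) ^ (j * (1 + ε))) := mul_le_mul_of_nonneg_left hs1 (by positivity)
      _ = K ^ 2 * C2 * (2 : ℝ) ^ (j * (1 + ε)) := by ring

end Pool.Agent.J4H53.GS6
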